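import Pool.Agent.Q146.FAD.Glue

/-!
# A surface with a collar
-/

set_option autoImplicit false

open Set MeasureTheory

namespace Pool.Agent.Q146.FAD

open Pool.Agent.H115R3.Filling

variable {M : Type} [MetricSpace M] {K : ℝ}

/-- the point of the `k`-th boundary edge with parameter `u` -/
noncomputable def ang (S : OrientedSurface M) (k : Fin S.arcs) (u : ℝ) : ℝ :=
  S.brk k.castSucc + u * (S.brk k.succ - S.brk k.castSucc)

theorem brk_lt (S : OrientedSurface M) (k : Fin S.arcs) : 0 < S.brk k.succ - S.brk k.castSucc :=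
  sub_pos.2 (S.brk_strictMono (Fin.castSucc_lt_succ))

theorem cpos (S : OrientedSurface M) (h : Lp S.boundary K) (k : Fin S.arcs) :
    0 < K * (S.brk k.succ - S.brk k.castSucc) :=
  mul_pos (by linarith [h.one]) (brk_lt S k)

theorem ang_rot (S : OrientedSurface M) (k : Fin S.arcs) :
    ((ang S (finRotate _ k) 0 : ℝ) : AddCircle (2 * Real.pi)) = (ang S k 1 : ℝ) := by
  unfold ang
  have key : ∀ (n : ℕ) (b : Fin (n + 1) → ℝ), b 0 = 0 → b (Fin.last n) = 2 * Real.pi →
      ∀ k : Fin n, ((b (finRotate _ k).castSucc : ℝ) : AddCircle (2 * Real.pi)) =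
        (b k.succ : ℝ) := by
    intro n b h0 h1 k
    obtain ⟨m, rfl⟩ : ∃ m, n = m + 1 := ⟨n - 1, by have := k.2; omega⟩
    by_cases hk : k = Fin.last m
    · subst hk
      rw [finRotate_last, Fin.succ_last, h1, AddCircle.coe_period]
      rw [Fin.castSucc_zero, h0]
      rfl
    · have e : (finRotate (m + 1) k).castSucc = k.succ := by
        apply Fin.ext
        rw [Fin.val_castSucc, Fin.val_succ, coe_finRotate_of_ne_last hk]
      rw [e]
  have h := key S.arcs S.brk S.brk_zero S.brk_last k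
  rw [zero_mul, add_zero, one_mul, add_sub_cancel]
  exact h

theorem sum_brk (S : OrientedSurface M) :
    ∑ k : Fin S.arcs, (S.brk k.succ - S.brk k.castSucc) = 2 * Real.pi := by
  have h1 := Fin.sum_univ_succ S.brk
  have h2 := Fin.sum_univ_castSucc S.brk
  rw [Finset.sum_sub_distrib]
  rw [S.brk_zero] at h1
  rw [S.brk_last] at h2
  linarith

open Classical in
/-- the pairing of the sides -/
noncomputable def cpair (S : OrientedSurface M) :
    (Fin S.faces ⊕ Fin S.arcs) × Fin 4 → (Fin S.faces ⊕ Fin S.arcs) × Fin 4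
  | (Sum.inl i, j) => if h : (i, j) ∈ S.interior then
      (Sum.inl (S.pair (i, j)).1, (S.pair (i, j)).2) else
      (Sum.inr ((S.arcSide_range (i, j)).1 h).choose, 2)
  | (Sum.inr k, 0) => (Sum.inr k, 0)
  | (Sum.inr k, 1) => (Sum.inr (finRotate _ k), 3)
  | (Sum.inr k, 2) => (Sum.inl (S.arcSide k).1, (S.arcSide k).2)
  | (Sum.inr k, 3) => (Sum.inr ((finRotate _).symm k), 1)

theorem cpair_int (S : OrientedSurface M) {s : Fin S.faces × Fin 4} (h : s ∈ S.interior) :
    cpair S (Sum.inl s.1, s.2) = (Sum.inl (S.pair s).1, (S.pair s).2) := by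
  obtain ⟨i, j⟩ := s
  change (if h : (i, j) ∈ S.interior then _ else _) = _
  rw [dif_pos h]

theorem cpair_arc (S : OrientedSurface M) (k : Fin S.arcs) :
    cpair S (Sum.inl (S.arcSide k).1, (S.arcSide k).2) = (Sum.inr k, 2) := by
  have h : ((S.arcSide k).1, (S.arcSide k).2) ∉ S.interior :=
    (S.arcSide_range _).2 ⟨k, rfl⟩
  change (if h : ((S.arcSide k).1, (S.arcSide k).2) ∈ S.interior then _ else _) = _
  rw [dif_neg h]
  have h1 := ((S.arcSide_range ((S.arcSide k).1, (S.arcSide k).2)).1 h).choose_spec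
  have h2 : ((S.arcSide_range ((S.arcSide k).1, (S.arcSide k).2)).1 h).choose = k :=
    S.arcSide_injective h1
  rw [h2]

theorem side_cases (S : OrientedSurface M) (s : (Fin S.faces ⊕ Fin S.arcs) × Fin 4) :
    (∃ s' ∈ S.interior, s = (Sum.inl s'.1, s'.2)) ∨
    (∃ k, s = (Sum.inl (S.arcSide k).1, (S.arcSide k).2)) ∨
    (∃ k, s = (Sum.inr k, 0)) ∨ (∃ k, s = (Sum.inr k, 1)) ∨ (∃ k, s = (Sum.inr k, 2)) ∨
    (∃ k, s = (Sum.inr k, 3)) := by
  obtain ⟨i | k, j⟩ := s
  · by_cases h : (i, j) ∈ S.interior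
    · exact Or.inl ⟨(i, j), h, rfl⟩
    · obtain ⟨k, hk⟩ := (S.arcSide_range _).1 h
      refine Or.inr (Or.inl ⟨k, ?_⟩)
      rw [hk]
  · fin_cases j
    · exact Or.inr (Or.inr (Or.inl ⟨k, rfl⟩))
    · exact Or.inr (Or.inr (Or.inr (Or.inl ⟨k, rfl⟩)))
    · exact Or.inr (Or.inr (Or.inr (Or.inr (Or.inl ⟨k, rfl⟩))))
    · exact Or.inr (Or.inr (Or.inr (Or.inr (Or.inr ⟨k, rfl⟩))))

/-- the surface with a collar of width `w` -/
noncomputable def collar (S : OrientedSurface M) (h : Lp S.boundary K) {w : ℝ} (hw : 0 < w) :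
    GSurf (Fin S.faces ⊕ Fin S.arcs) (SeparationQuotient (Zt h)) where
  chart := Sum.elim (fun i p => iM h (S.chart i p))
    (fun k p => iC h (ang S k p.1 : ℝ) (w * (1 - p.2)))
  metric := Sum.elim S.metric
    (fun k => cMet (K * (S.brk k.succ - S.brk k.castSucc)) w (cpos S h k) hw)
  dist_le := by
    rintro (i | k) p hp q hq
    · change dist (iM h (S.chart i p)) (iM h (S.chart i q)) ≤ _
      rw [dist_iM]
      exact S.dist_le i p hp q hq
    · change dist (iC h (ang S k p.1 : ℝ) (w * (1 - p.2))) (iC h (ang S k q.1 : ℝ) (w * (1 - q.2)))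
        ≤ (cMet (K * (S.brk k.succ - S.brk k.castSucc)) w (cpos S h k) hw).segLength p q
      have hp2 : 0 ≤ w * (1 - p.2) := mul_nonneg hw.le (by linarith [hp.2.2])
      have hq2 : 0 ≤ w * (1 - q.2) := mul_nonneg hw.le (by linarith [hq.2.2])
      rw [dist_iC h _ _ hp2 hq2]
      refine (min_le_left _ _).trans (le_trans ?_ (cMet_seg _ hw p q))
      have h1 := dist_coe_le (ang S k p.1) (ang S k q.1)
      have h2 : ang S k p.1 - ang S k q.1 =
          (S.brk k.succ - S.brk k.castSucc) * (p.1 - q.1) := by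
        unfold ang; ring
      rw [h2, abs_mul, abs_of_pos (brk_lt S k)] at h1
      have h3 : |w * (1 - p.2) - w * (1 - q.2)| = w * |p.2 - q.2| := by
        rw [show w * (1 - p.2) - w * (1 - q.2) = w * (q.2 - p.2) by ring, abs_mul,
          abs_of_pos hw, abs_sub_comm]
      rw [h3]
      have h4 := mul_le_mul_of_nonneg_left h1 (by linarith [h.one] : 0 ≤ K)
      linarith
  interior := {s | ∀ k, s ≠ (Sum.inr k, 0)}
  pair := cpair S
  pair_mem := by
    intro s hs k
    rcases side_cases S s with ⟨s', h1, rfl⟩ | ⟨l, rfl⟩ | ⟨l, rfl⟩ | ⟨l, rfl⟩ | ⟨l, rfl⟩ | ⟨l, rfl⟩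
    · rw [cpair_int S h1]; simp
    · rw [cpair_arc]; simp
    · exact absurd rfl (hs l)
    · simp [cpair]
    · simp [cpair]
    · simp [cpair]
  pair_pair := by
    intro s hs
    rcases side_cases S s with ⟨s', h1, rfl⟩ | ⟨l, rfl⟩ | ⟨l, rfl⟩ | ⟨l, rfl⟩ | ⟨l, rfl⟩ | ⟨l, rfl⟩
    · rw [cpair_int S h1, cpair_int S (S.pair_mem _ h1), S.pair_pair _ h1]
    · rw [cpair_arc]; rfl
    · exact absurd rfl (hs l)
    · change (Sum.inr ((finRotate _).symm (finRotate _ l)), (1 : Fin 4)) = _
      rw [Equiv.symm_apply_apply]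
    · exact cpair_arc S l
    · change (Sum.inr (finRotate _ ((finRotate _).symm l)), (3 : Fin 4)) = _
      rw [Equiv.apply_symm_apply]
  pair_ne := by
    intro s hs
    rcases side_cases S s with ⟨s', h1, rfl⟩ | ⟨l, rfl⟩ | ⟨l, rfl⟩ | ⟨l, rfl⟩ | ⟨l, rfl⟩ | ⟨l, rfl⟩
    · rw [cpair_int S h1]
      intro h2
      refine S.pair_ne _ h1 ?_
      have h3 := congrArg Prod.fst h2
      have h4 := congrArg Prod.snd h2
      exact Prod.ext (Sum.inl_injective h3) h4
    · rw [cpair_arc]; simp
    · exact absurd rfl (hs l)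
    · simp [cpair]
    · simp [cpair]
    · simp [cpair]
  glue := by
    intro s hs t ht
    rcases side_cases S s with ⟨s', h1, rfl⟩ | ⟨l, rfl⟩ | ⟨l, rfl⟩ | ⟨l, rfl⟩ | ⟨l, rfl⟩ | ⟨l, rfl⟩
    · rw [cpair_int S h1]
      change iM h (S.chart (S.pair s').1 (side (S.pair s').2 t)) =
        iM h (S.chart s'.1 (side s'.2 (1 - t)))
      rw [S.glue _ h1 t ht]
    · rw [cpair_arc]
      change iC h (ang S l (1 - t) : ℝ) (w * (1 - 1)) =
        iM h (S.chart (S.arcSide l).1 (side (S.arcSide l).2 (1 - t)))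
      rw [S.boundary_eq l (1 - t) ⟨by linarith [ht.2], by linarith [ht.1]⟩, sub_self, mul_zero,
        iC_zero]
      rfl
    · exact absurd rfl (hs l)
    · change iC h (ang S (finRotate _ l) 0 : ℝ) (w * (1 - (1 - t))) =
        iC h (ang S l 1 : ℝ) (w * (1 - (1 - t)))
      rw [ang_rot]
    · change iM h (S.chart (S.arcSide l).1 (side (S.arcSide l).2 t)) =
        iC h (ang S l (1 - (1 - t)) : ℝ) (w * (1 - 1))
      rw [S.boundary_eq l t ht, sub_self, mul_zero, iC_zero, sub_sub_cancel]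
      rfl
    · change iC h (ang S ((finRotate _).symm l) 1 : ℝ) (w * (1 - t)) =
        iC h (ang S l 0 : ℝ) (w * (1 - (1 - (1 - t))))
      rw [← ang_rot, Equiv.apply_symm_apply]
      congr 2
      ring
  arcs := S.arcs
  arcSide := fun k => (Sum.inr k, 0)
  arcSide_injective := fun k l h => by simpa using h
  arcSide_range := fun s => by
    constructor
    · intro hs
      by_contra hcon
      push Not at hcon
      exact hs fun k h => hcon k h.symm
    · rintro ⟨k, rfl⟩ hs
      exact hs k rfl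
  brk := S.brk
  brk_strictMono := S.brk_strictMono
  brk_zero := S.brk_zero
  brk_last := S.brk_last
  boundary := fun x => iC h x w
  boundary_eq := fun k u hu => by
    change iC h (ang S k u : ℝ) (w * (1 - 0)) = _
    rw [sub_zero, mul_one]
    rfl

theorem collar_area (S : OrientedSurface M) (h : Lp S.boundary K) {w : ℝ} (hw : 0 < w) :
    (collar S h hw).toO.area = S.area + 4 * Real.pi * K * w := by
  rw [GSurf.area_toO, Fintype.sum_sum_type]
  have e : ∀ k : Fin S.arcs, ((collar S h hw).metric (Sum.inr k)).area =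
      2 * K * w * (S.brk k.succ - S.brk k.castSucc) := by
    intro k
    change (cMet (K * (S.brk k.succ - S.brk k.castSucc)) w (cpos S h k) hw).area = _
    rw [cMet_area]; ring
  simp only [e]
  rw [← Finset.mul_sum, sum_brk]
  change S.area + 2 * K * w * (2 * Real.pi) = _
  ring

/-- **almost no shortcuts** -/
theorem almost {A : ℝ}
    (H : ∀ (M : Type) [MetricSpace M] (S : OrientedSurface M), S.NoShortcut → A ≤ S.area)
    (S : OrientedSurface M) (h : Lp S.boundary K) {ε : ℝ} (hε : 0 ≤ ε)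
    (hS : ∀ x y, dist x y ≤ dist (S.boundary x) (S.boundary y) + ε) :
    A ≤ S.area + 2 * Real.pi * K * ε := by
  refine le_of_forall_pos_le_add fun δ hδ => ?_
  have hK : 0 < K := by linarith [h.one]
  have hw : 0 < ε / 2 + δ / (4 * Real.pi * K) := by positivity
  have h1 := H _ (collar S h hw).toO ?_
  · rw [collar_area] at h1
    refine h1.trans (le_of_eq ?_)
    have hpi := Real.pi_pos
    field_simp
    ring
  · intro x y
    change dist x y ≤ dist (iC h x _) (iC h y _)
    rw [dist_iC h x y hw.le hw.le, sub_self, abs_zero, add_zero]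
    refine le_min ?_ ?_
    · have h2 : 1 * dist x y ≤ K * dist x y := mul_le_mul_of_nonneg_right h.one dist_nonneg
      linarith
    · have h2 := hS x y
      have h3 : 0 < δ / (4 * Real.pi * K) := by positivity
      linarith

end Pool.Agent.Q146.FAD
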