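import Pool.Agent.Q146.FAC.Main

/-!
# Surfaces with an arbitrary finite set of faces; constant metrics
-/

set_option autoImplicit false

open Set MeasureTheory

namespace Pool.Agent.Q146.FAD

open Pool.Agent.H115R3.Filling

/-- an oriented surface with faces indexed by `ι` -/
structure GSurf (ι : Type) (M : Type) [MetricSpace M] where
  chart : ι → ℝ × ℝ → M
  metric : ι → RiemMetric
  dist_le : ∀ i, ∀ p ∈ Sq, ∀ q ∈ Sq, dist (chart i p) (chart i q) ≤ (metric i).segLength p q
  interior : Set (ι × Fin 4)
  pair : ι × Fin 4 → ι × Fin 4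
  pair_mem : ∀ s ∈ interior, pair s ∈ interior
  pair_pair : ∀ s ∈ interior, pair (pair s) = s
  pair_ne : ∀ s ∈ interior, pair s ≠ s
  glue : ∀ s ∈ interior, ∀ t ∈ Set.Icc (0 : ℝ) 1,
    chart (pair s).1 (side (pair s).2 t) = chart s.1 (side s.2 (1 - t))
  arcs : ℕ
  arcSide : Fin arcs → ι × Fin 4
  arcSide_injective : Function.Injective arcSide
  arcSide_range : ∀ s, s ∉ interior ↔ ∃ k, arcSide k = s
  brk : Fin (arcs + 1) → ℝ
  brk_strictMono : StrictMono brk
  brk_zero : brk 0 = 0
  brk_last : brk (Fin.last arcs) = 2 * Real.pi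
  boundary : AddCircle (2 * Real.pi) → M
  boundary_eq : ∀ k : Fin arcs, ∀ u ∈ Set.Icc (0 : ℝ) 1,
    chart (arcSide k).1 (side (arcSide k).2 u) =
      boundary ((brk k.castSucc + u * (brk k.succ - brk k.castSucc) : ℝ) :
        AddCircle (2 * Real.pi))

open Classical in
/-- numbering of the faces -/
noncomputable def GSurf.toO {ι : Type} [Fintype ι] {M : Type} [MetricSpace M] (S : GSurf ι M) :
    OrientedSurface M where
  faces := Fintype.card ι
  chart := fun i => S.chart ((Fintype.equivFin ι).symm i)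
  metric := fun i => S.metric ((Fintype.equivFin ι).symm i)
  dist_le := fun i => S.dist_le _
  interior := Finset.univ.filter fun s => ((Fintype.equivFin ι).symm s.1, s.2) ∈ S.interior
  pair := fun s => (Fintype.equivFin ι (S.pair ((Fintype.equivFin ι).symm s.1, s.2)).1,
    (S.pair ((Fintype.equivFin ι).symm s.1, s.2)).2)
  pair_mem := fun s hs => by
    rw [Finset.mem_filter] at hs ⊢
    refine ⟨Finset.mem_univ _, ?_⟩
    simpa using S.pair_mem _ hs.2
  pair_pair := fun s hs => by
    rw [Finset.mem_filter] at hs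
    have h := S.pair_pair _ hs.2
    simp only [Equiv.symm_apply_apply, Prod.mk.eta, h, Equiv.apply_symm_apply]
  pair_ne := fun s hs h => by
    rw [Finset.mem_filter] at hs
    refine S.pair_ne _ hs.2 ?_
    have h1 := congrArg Prod.fst h
    have h2 := congrArg Prod.snd h
    simp only at h1 h2
    refine Prod.ext ?_ h2
    change (S.pair ((Fintype.equivFin ι).symm s.1, s.2)).1 = (Fintype.equivFin ι).symm s.1
    rw [Equiv.eq_symm_apply]
    exact h1
  glue := fun s hs t ht => by
    rw [Finset.mem_filter] at hs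
    have h := S.glue _ hs.2 t ht
    simpa using h
  arcs := S.arcs
  arcSide := fun k => (Fintype.equivFin ι (S.arcSide k).1, (S.arcSide k).2)
  arcSide_injective := fun k l h => by
    have h1 := congrArg Prod.fst h
    have h2 := congrArg Prod.snd h
    simp only at h1 h2
    exact S.arcSide_injective (Prod.ext ((Fintype.equivFin ι).injective h1) h2)
  arcSide_range := fun s => by
    rw [Finset.mem_filter]
    simp only [Finset.mem_univ, true_and]
    rw [S.arcSide_range]
    constructor
    · rintro ⟨k, hk⟩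
      refine ⟨k, ?_⟩
      rw [hk]
      simp
    · rintro ⟨k, hk⟩
      refine ⟨k, ?_⟩
      rw [← hk]
      simp
  brk := S.brk
  brk_strictMono := S.brk_strictMono
  brk_zero := S.brk_zero
  brk_last := S.brk_last
  boundary := S.boundary
  boundary_eq := fun k u hu => by
    have h := S.boundary_eq k u hu
    simpa using h

theorem GSurf.area_toO {ι : Type} [Fintype ι] {M : Type} [MetricSpace M] (S : GSurf ι M) :
    S.toO.area = ∑ i, (S.metric i).area :=
  Equiv.sum_comp (Fintype.equivFin ι).symm fun i => (S.metric i).area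

/-- the constant metric `2 a² dx² + 2 b² dy²` -/
def cMet (a b : ℝ) (ha : 0 < a) (hb : 0 < b) : RiemMetric where
  E := fun _ => 2 * a ^ 2
  F := fun _ => 0
  G := fun _ => 2 * b ^ 2
  continuousOn_E := continuousOn_const
  continuousOn_F := continuousOn_const
  continuousOn_G := continuousOn_const
  pos_E := fun _ _ => by positivity
  pos_det := fun _ _ => by
    have : 0 < 2 * a ^ 2 * (2 * b ^ 2) := by positivity
    linarith

theorem cMet_seg {a b : ℝ} (ha : 0 < a) (hb : 0 < b) (p q : ℝ × ℝ) :
    a * |p.1 - q.1| + b * |p.2 - q.2| ≤ (cMet a b ha hb).segLength p q := by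
  unfold RiemMetric.segLength RiemMetric.norm cMet
  simp only
  rw [intervalIntegral.integral_const, sub_zero, one_smul]
  apply Real.le_sqrt_of_sq_le
  have h1 : |p.1 - q.1| ^ 2 = (q - p).1 ^ 2 := by
    rw [sq_abs, Prod.fst_sub]; ring
  have h2 : |p.2 - q.2| ^ 2 = (q - p).2 ^ 2 := by
    rw [sq_abs, Prod.snd_sub]; ring
  rw [← h1, ← h2]
  nlinarith [sq_nonneg (a * |p.1 - q.1| - b * |p.2 - q.2|)]

theorem cMet_area {a b : ℝ} (ha : 0 < a) (hb : 0 < b) : (cMet a b ha hb).area = 2 * a * b := by
  unfold RiemMetric.area cMet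
  simp only
  have e : √(2 * a ^ 2 * (2 * b ^ 2) - 0 ^ 2) = 2 * a * b := by
    rw [show 2 * a ^ 2 * (2 * b ^ 2) - 0 ^ 2 = (2 * a * b) ^ 2 by ring]
    exact Real.sqrt_sq (by positivity)
  rw [e, setIntegral_const, smul_eq_mul]
  have h1 : volume.real Sq = 1 := by
    unfold Sq
    rw [Measure.real, Measure.volume_eq_prod, Measure.prod_prod]
    simp
  rw [h1, one_mul]

end Pool.Agent.Q146.FAD
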