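import Pool.Agent.Q146.FAD.Gen

/-!
# A collar attached to a metric space along a closed curve
-/

set_option autoImplicit false

open Set MeasureTheory

namespace Pool.Agent.Q146.FAD

open Pool.Agent.H115R3.Filling

/-- `bd` is `K`-Lipschitz, `K ≥ 1` -/
structure Lp {M : Type} [MetricSpace M] (bd : AddCircle (2 * Real.pi) → M) (K : ℝ) : Prop where
  one : 1 ≤ K
  lip : ∀ x y, dist (bd x) (bd y) ≤ K * dist x y

variable {M : Type} [MetricSpace M] {bd : AddCircle (2 * Real.pi) → M} {K : ℝ}

/-- the space `M` with a collar attached along `bd` -/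
def Zt (_ : Lp bd K) : Type := M ⊕ (AddCircle (2 * Real.pi) × NNReal)

/-- its distance -/
noncomputable def dZ (bd : AddCircle (2 * Real.pi) → M) (K : ℝ) :
    M ⊕ (AddCircle (2 * Real.pi) × NNReal) → M ⊕ (AddCircle (2 * Real.pi) × NNReal) → ℝ
  | Sum.inl m, Sum.inl m' => dist m m'
  | Sum.inl m, Sum.inr p => (p.2 : ℝ) + dist m (bd p.1)
  | Sum.inr p, Sum.inl m => (p.2 : ℝ) + dist (bd p.1) m
  | Sum.inr p, Sum.inr q =>
    min (K * dist p.1 q.1 + |(p.2 : ℝ) - q.2|) ((p.2 : ℝ) + q.2 + dist (bd p.1) (bd q.1))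

theorem dZ_triangle (h : Lp bd K) (x y z : M ⊕ (AddCircle (2 * Real.pi) × NNReal)) :
    dZ bd K x z ≤ dZ bd K x y + dZ bd K y z := by
  have hK := h.one
  rcases x with m | ⟨x, s⟩ <;> rcases y with m' | ⟨y, t⟩ <;> rcases z with m'' | ⟨z, u⟩ <;>
    simp only [dZ]
  · exact dist_triangle _ _ _
  · have := dist_triangle m m' (bd z)
    linarith
  · have h1 := dist_triangle m (bd y) m''
    have h2 : (0 : ℝ) ≤ t := t.2
    linarith
  · have h1 : (0 : ℝ) ≤ t := t.2
    have h2 := h.lip y z
    have h3 := dist_triangle m (bd y) (bd z)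
    have h4 := neg_le_abs ((t : ℝ) - u)
    rcases min_choice (K * dist y z + |(t : ℝ) - u|) ((t : ℝ) + u + dist (bd y) (bd z)) with e | e
      <;> rw [e] <;> linarith
  · have h1 := dist_triangle (bd x) m' m''
    linarith
  · refine (min_le_right _ _).trans ?_
    have h1 := dist_triangle (bd x) m' (bd z)
    linarith
  · have h1 : (0 : ℝ) ≤ t := t.2
    have h2 := h.lip x y
    have h3 := dist_triangle (bd x) (bd y) m''
    have h4 := le_abs_self ((s : ℝ) - t)
    rcases min_choice (K * dist x y + |(s : ℝ) - t|) ((s : ℝ) + t + dist (bd x) (bd y)) with e | e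
      <;> rw [e] <;> linarith
  · have h1 : (0 : ℝ) ≤ t := t.2
    have h2 := h.lip x y
    have h2' := h.lip y z
    have h3 := dist_triangle (bd x) (bd y) (bd z)
    have h4 := le_abs_self ((s : ℝ) - t)
    have h5 := neg_le_abs ((t : ℝ) - u)
    rcases min_choice (K * dist x y + |(s : ℝ) - t|) ((s : ℝ) + t + dist (bd x) (bd y)) with e | e
      <;> rcases min_choice (K * dist y z + |(t : ℝ) - u|) ((t : ℝ) + u + dist (bd y) (bd z))
        with e' | e' <;> rw [e, e']
    · refine (min_le_left _ _).trans ?_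
      have h6 := dist_triangle x y z
      have h7 := abs_sub_le (s : ℝ) t u
      have h8 : K * dist x z ≤ K * (dist x y + dist y z) :=
        mul_le_mul_of_nonneg_left h6 (by linarith)
      linarith
    · refine (min_le_right _ _).trans ?_
      linarith
    · refine (min_le_right _ _).trans ?_
      linarith
    · refine (min_le_right _ _).trans ?_
      linarith

noncomputable instance (h : Lp bd K) : PseudoMetricSpace (Zt h) where
  dist := dZ bd K
  dist_self := fun x => by
    rcases x with m | ⟨x, s⟩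
    · exact dist_self m
    · change min (K * dist x x + |(s : ℝ) - s|) ((s : ℝ) + s + dist (bd x) (bd x)) = 0
      rw [dist_self, sub_self, abs_zero, mul_zero, dist_self, add_zero, add_zero]
      exact min_eq_left (by have : (0 : ℝ) ≤ s := s.2; linarith)
  dist_comm := fun x y => by
    rcases x with m | ⟨x, s⟩ <;> rcases y with m' | ⟨y, t⟩
    · exact dist_comm m m'
    · change (t : ℝ) + dist m (bd y) = t + dist (bd y) m
      rw [dist_comm]
    · change (s : ℝ) + dist (bd x) m' = s + dist m' (bd x)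
      rw [dist_comm]
    · change min (K * dist x y + |(s : ℝ) - t|) ((s : ℝ) + t + dist (bd x) (bd y)) =
        min (K * dist y x + |(t : ℝ) - s|) ((t : ℝ) + s + dist (bd y) (bd x))
      rw [dist_comm x, abs_sub_comm, dist_comm (bd x), add_comm (s : ℝ)]
  dist_triangle := dZ_triangle h

/-- a point of `M` -/
def zl (h : Lp bd K) (m : M) : Zt h := Sum.inl m

/-- a point of the collar -/
noncomputable def zr (h : Lp bd K) (x : AddCircle (2 * Real.pi)) (s : ℝ) : Zt h :=
  Sum.inr (x, s.toNNReal)

/-- the points of `M` -/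
noncomputable def iM (h : Lp bd K) (m : M) : SeparationQuotient (Zt h) :=
  SeparationQuotient.mk (zl h m)

/-- the points of the collar -/
noncomputable def iC (h : Lp bd K) (x : AddCircle (2 * Real.pi)) (s : ℝ) :
    SeparationQuotient (Zt h) :=
  SeparationQuotient.mk (zr h x s)

theorem dist_iM (h : Lp bd K) (m m' : M) : dist (iM h m) (iM h m') = dist m m' :=
  SeparationQuotient.dist_mk (zl h m) (zl h m')

theorem dist_iC (h : Lp bd K) (x y : AddCircle (2 * Real.pi)) {s t : ℝ} (hs : 0 ≤ s)
    (ht : 0 ≤ t) : dist (iC h x s) (iC h y t) =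
      min (K * dist x y + |s - t|) (s + t + dist (bd x) (bd y)) := by
  refine (SeparationQuotient.dist_mk (zr h x s) (zr h y t)).trans ?_
  change min (K * dist x y + |(s.toNNReal : ℝ) - t.toNNReal|)
    ((s.toNNReal : ℝ) + t.toNNReal + dist (bd x) (bd y)) = _
  rw [Real.coe_toNNReal _ hs, Real.coe_toNNReal _ ht]

theorem iC_zero (h : Lp bd K) (x : AddCircle (2 * Real.pi)) : iC h x 0 = iM h (bd x) := by
  refine dist_eq_zero.1 ?_
  refine (SeparationQuotient.dist_mk (zr h x 0) (zl h (bd x))).trans ?_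
  change ((0 : ℝ).toNNReal : ℝ) + dist (bd x) (bd x) = 0
  rw [dist_self]
  simp

theorem dist_coe_le (a b : ℝ) :
    dist (a : AddCircle (2 * Real.pi)) (b : AddCircle (2 * Real.pi)) ≤ |a - b| := by
  rw [dist_eq_norm, ← AddCircle.coe_sub]
  have h1 := QuotientAddGroup.norm_mk_le_norm (S := AddSubgroup.zmultiples (2 * Real.pi))
    (m := a - b)
  rw [Real.norm_eq_abs] at h1
  exact h1

end Pool.Agent.Q146.FAD
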