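import Pool.Agent.Q146.FAD.Collar

/-!
# Fillings with finitely many conditions on the distances
-/

set_option autoImplicit false

open Set MeasureTheory Filter Topology

namespace Pool.Agent.Q146.FAD

open Pool.Agent.H115R3.Filling Pool.Agent.Q146.FAC Pool.Agent.Q146.FVC

variable {M : Type} [MetricSpace M] {K : ℝ}

/-- the boundary is isometric to the circle of length `2π` -/
def Isometric {M : Type} [MetricSpace M] (S : OrientedSurface M) : Prop :=
  ∀ x y : AddCircle (2 * Real.pi), dist (S.boundary x) (S.boundary y) = dist x y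

/-- **almost no shortcuts**, boundary of length `2π` -/
theorem almostI {A : ℝ}
    (H : ∀ (M : Type) [MetricSpace M] (S : OrientedSurface M), Isometric S → A ≤ S.area)
    (S : OrientedSurface M) (h : Lp S.boundary 1) {ε : ℝ} (hε : 0 ≤ ε)
    (hS : ∀ x y, dist x y ≤ dist (S.boundary x) (S.boundary y) + ε) :
    A ≤ S.area + 2 * Real.pi * 1 * ε := by
  refine le_of_forall_pos_le_add fun δ hδ => ?_
  have hw : 0 < ε / 2 + δ / (4 * Real.pi) := by positivity
  have h1 := H _ (collar S h hw).toO ?_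
  · rw [collar_area] at h1
    refine h1.trans (le_of_eq ?_)
    have hpi := Real.pi_pos
    field_simp
    ring
  · intro x y
    change dist (iC h x _) (iC h y _) = dist x y
    rw [dist_iC h x y hw.le hw.le, sub_self, abs_zero, add_zero, one_mul]
    refine min_eq_left ?_
    have h2 := hS x y
    have h3 : 0 < δ / (4 * Real.pi) := by positivity
    linarith

/-- the conditions on `h`, with a defect `ε` -/
structure HeightE (h : M → ℝ) (bd : AddCircle (2 * Real.pi) → M) (ε : ℝ) : Prop where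
  lip : LipschitzWith 1 h
  pos : ∃ c : ℝ, 0 < c ∧ ∀ x, c ≤ h (bd x)
  sum : ∀ x y : AddCircle (2 * Real.pi), dist x y ≤ h (bd x) + h (bd y) + ε

variable {h : M → ℝ}

theorem reduceE {A : ℝ}
    (H : ∀ (M : Type) [MetricSpace M] (S : OrientedSurface M) (ε : ℝ), Lp S.boundary K → 0 ≤ ε →
      (∀ x y, dist x y ≤ dist (S.boundary x) (S.boundary y) + ε) →
      A ≤ S.area + 2 * Real.pi * K * ε)
    (S : NearSurface M h) (hL : Lp S.boundary K) {ε : ℝ} (hε : 0 ≤ ε)
    (hS : ∀ x y, dist x y ≤ dist (S.boundary x) (S.boundary y) + ε)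
    (hh : HeightE h S.boundary ε) : A ≤ S.posArea + 2 * Real.pi * K * ε := by
  obtain ⟨c0, hc0, hc0'⟩ := hh.pos
  have key : ∀ n : ℕ, A ≤ 1 ^ 2 * (S.posArea + (1 / ((n : ℝ) + 2)) ^ 2 * S.area) +
      2 * Real.pi * K * (ε + 2 * (c0 * (1 / ((n : ℝ) + 2)))) := by
    intro n
    have hn : (0 : ℝ) ≤ n := Nat.cast_nonneg n
    have hη : 0 < 1 / ((n : ℝ) + 2) := by positivity
    have hη1 : 1 / ((n : ℝ) + 2) < 1 := by
      rw [div_lt_one (by positivity)]; linarith
    have ht : 0 < c0 * (1 / ((n : ℝ) + 2)) := by positivity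
    have htc : c0 * (1 / ((n : ℝ) + 2)) < c0 := by nlinarith
    have hb0 : ∀ x, 0 < h (S.boundary x) - c0 * (1 / ((n : ℝ) + 2)) := fun x => by
      have := hc0' x; linarith
    have h1 := @H _ (colS (lip_sub hh.lip (c0 * (1 / ((n : ℝ) + 2)))) 1 one_pos)
      (toOriented S hh.lip ht hη hη1.le one_pos) (ε + 2 * (c0 * (1 / ((n : ℝ) + 2))))
      (by
        refine @Lp.mk _ (colS (lip_sub hh.lip (c0 * (1 / ((n : ℝ) + 2)))) 1 one_pos) _ _
          hL.one fun x y => ?_
        change 1 * dC (fun q => h q - c0 * (1 / ((n : ℝ) + 2)))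
          (pj (fun q => h q - c0 * (1 / ((n : ℝ) + 2))) (S.boundary x))
          (pj (fun q => h q - c0 * (1 / ((n : ℝ) + 2))) (S.boundary y)) ≤ K * dist x y
        rw [one_mul]
        exact (dC_pj_le (lip_sub hh.lip _) _ _).trans (hL.lip x y))
      (by positivity)
      (by
        intro x y
        change dist x y ≤ 1 * dC (fun q => h q - c0 * (1 / ((n : ℝ) + 2)))
          (pj (fun q => h q - c0 * (1 / ((n : ℝ) + 2))) (S.boundary x))
          (pj (fun q => h q - c0 * (1 / ((n : ℝ) + 2))) (S.boundary y)) + _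
        rw [one_mul]
        have h2 := hS x y
        have h3 := hh.sum x y
        have h4 : dist x y - (ε + 2 * (c0 * (1 / ((n : ℝ) + 2)))) ≤
            dC (fun q => h q - c0 * (1 / ((n : ℝ) + 2)))
              (pj (fun q => h q - c0 * (1 / ((n : ℝ) + 2))) (S.boundary x))
              (pj (fun q => h q - c0 * (1 / ((n : ℝ) + 2))) (S.boundary y)) :=
          le_dC_pj _ _ (by linarith) (by linarith) (hb0 x) (hb0 y)
        linarith)
    have h5 := area_le S hh.lip ht hη hη1.le one_pos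
    linarith
  have t1 : Tendsto (fun n : ℕ => 1 / ((n : ℝ) + 1)) atTop (𝓝 0) :=
    tendsto_one_div_add_atTop_nhds_zero_nat
  have t2 : Tendsto (fun n : ℕ => 1 / ((n : ℝ) + 2)) atTop (𝓝 0) := by
    have h1 := t1.comp (tendsto_add_atTop_nat 1)
    refine h1.congr fun n => ?_
    simp only [Function.comp_apply]
    push_cast
    ring
  have t4 : Tendsto (fun n : ℕ => 1 ^ 2 * (S.posArea + (1 / ((n : ℝ) + 2)) ^ 2 * S.area) +
      2 * Real.pi * K * (ε + 2 * (c0 * (1 / ((n : ℝ) + 2))))) atTop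
      (𝓝 (1 ^ 2 * (S.posArea + 0 ^ 2 * S.area) + 2 * Real.pi * K * (ε + 2 * (c0 * 0)))) :=
    ((((t2.pow 2).mul_const _).const_add _).const_mul _).add
      ((((t2.const_mul c0).const_mul 2).const_add ε).const_mul _)
  have h5 := ge_of_tendsto' t4 key
  simpa using h5

/-- finitely many conditions: all points of the circle are at distance at most `δ` from `P` -/
structure Net (P : Set (AddCircle (2 * Real.pi))) (δ : ℝ) : Prop where
  nonneg : 0 ≤ δ
  dense : ∀ x, ∃ p ∈ P, dist x p ≤ δ

/-- the distances of the points of `P` are not shortened -/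
def LongOn (P : Set (AddCircle (2 * Real.pi))) (bd : AddCircle (2 * Real.pi) → M) : Prop :=
  ∀ p ∈ P, ∀ q ∈ P, dist p q ≤ dist (bd p) (bd q)

/-- the conditions on `h`, on `P` -/
structure HeightOn (P : Set (AddCircle (2 * Real.pi))) (h : M → ℝ)
    (bd : AddCircle (2 * Real.pi) → M) : Prop where
  lip : LipschitzWith 1 h
  pos : ∃ c : ℝ, 0 < c ∧ ∀ x, c ≤ h (bd x)
  sum : ∀ p ∈ P, ∀ q ∈ P, dist p q ≤ h (bd p) + h (bd q)

theorem long_net {P : Set (AddCircle (2 * Real.pi))} {δ : ℝ} (hP : Net P δ)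
    {bd : AddCircle (2 * Real.pi) → M} (hL : Lp bd K) (h1 : LongOn P bd)
    (x y : AddCircle (2 * Real.pi)) :
    dist x y ≤ dist (bd x) (bd y) + 2 * (K + 1) * δ := by
  obtain ⟨p, hp, hxp⟩ := hP.dense x
  obtain ⟨q, hq, hyq⟩ := hP.dense y
  have h2 := h1 p hp q hq
  have h3 := hL.lip x p
  have h4 := hL.lip y q
  have h5 := dist_triangle4 x p q y
  have h6 := dist_triangle4 (bd p) (bd x) (bd y) (bd q)
  rw [dist_comm (bd p) (bd x)] at h6
  rw [dist_comm q y] at h5
  have hK : 0 ≤ K := by linarith [hL.one]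
  have h7 := mul_le_mul_of_nonneg_left hxp hK
  have h8 := mul_le_mul_of_nonneg_left hyq hK
  linarith

theorem height_net {P : Set (AddCircle (2 * Real.pi))} {δ : ℝ} (hP : Net P δ)
    {bd : AddCircle (2 * Real.pi) → M} (hL : Lp bd K) (h1 : HeightOn P h bd) :
    HeightE h bd (2 * (K + 1) * δ) where
  lip := h1.lip
  pos := h1.pos
  sum := by
    intro x y
    obtain ⟨p, hp, hxp⟩ := hP.dense x
    obtain ⟨q, hq, hyq⟩ := hP.dense y
    have h2 := h1.sum p hp q hq
    have h3 := hL.lip x p
    have h4 := hL.lip y q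
    have h5 := dist_triangle4 x p q y
    rw [dist_comm q y] at h5
    have h6 := h1.lip.dist_le_mul (bd x) (bd p)
    have h7 := h1.lip.dist_le_mul (bd y) (bd q)
    rw [NNReal.coe_one, one_mul, Real.dist_eq] at h6 h7
    have h8 := neg_abs_le (h (bd x) - h (bd p))
    have h9 := neg_abs_le (h (bd y) - h (bd q))
    have hK : 0 ≤ K := by linarith [hL.one]
    have h10 := mul_le_mul_of_nonneg_left hxp hK
    have h11 := mul_le_mul_of_nonneg_left hyq hK
    linarith

/-- `N` equally spaced points -/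
def pts (N : ℕ) : Set (AddCircle (2 * Real.pi)) :=
  {x | ∃ i : ℕ, i < N ∧ x = ((2 * Real.pi * i / N : ℝ) : AddCircle (2 * Real.pi))}

theorem net_pts {N : ℕ} (hN : 0 < N) : Net (pts N) (Real.pi / N) where
  nonneg := by positivity
  dense := by
    intro x
    obtain ⟨r, rfl⟩ := QuotientAddGroup.mk_surjective x
    have hNR : (0 : ℝ) < N := by exact_mod_cast hN
    have hpi := Real.pi_pos
    obtain ⟨k, hk⟩ : ∃ k : ℤ, k = round (r * N / (2 * Real.pi)) := ⟨_, rfl⟩
    have h1 : |r - 2 * Real.pi * k / N| ≤ Real.pi / N := by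
      have h2 := abs_sub_round (r * N / (2 * Real.pi))
      rw [← hk] at h2
      have e : r - 2 * Real.pi * k / N = (r * N / (2 * Real.pi) - k) * (2 * Real.pi / N) := by
        field_simp
      rw [e, abs_mul, abs_of_pos (by positivity : 0 < 2 * Real.pi / N)]
      calc |r * N / (2 * Real.pi) - k| * (2 * Real.pi / N) ≤ 1 / 2 * (2 * Real.pi / N) :=
            mul_le_mul_of_nonneg_right h2 (by positivity)
        _ = Real.pi / N := by ring
    refine ⟨((2 * Real.pi * ((k % N).toNat : ℕ) / N : ℝ) : AddCircle (2 * Real.pi)),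
      ⟨(k % N).toNat, ?_, rfl⟩, ?_⟩
    · have h3 := Int.emod_lt_of_pos k (by exact_mod_cast hN : (0 : ℤ) < N)
      have h4 := Int.emod_nonneg k (by exact_mod_cast hN.ne' : (N : ℤ) ≠ 0)
      omega
    · have h4 := Int.emod_nonneg k (by exact_mod_cast hN.ne' : (N : ℤ) ≠ 0)
      have h5 : (((k % N).toNat : ℕ) : ℝ) = k - N * (k / N : ℤ) := by
        have h6 : (((k % N).toNat : ℕ) : ℤ) = k - N * (k / N) := by
          rw [Int.toNat_of_nonneg h4, Int.emod_def]
        exact_mod_cast congrArg (fun z : ℤ => (z : ℝ)) h6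
      have h7 : ((2 * Real.pi * ((k % N).toNat : ℕ) / N : ℝ) : AddCircle (2 * Real.pi)) =
          ((2 * Real.pi * k / N : ℝ) : AddCircle (2 * Real.pi)) := by
        rw [h5]
        have e : 2 * Real.pi * (k - N * (k / N : ℤ)) / N =
            2 * Real.pi * k / N - (k / N : ℤ) • (2 * Real.pi) := by
          rw [zsmul_eq_mul]
          field_simp
        rw [e, AddCircle.coe_sub, AddCircle.coe_zsmul, AddCircle.coe_period, smul_zero, sub_zero]
      rw [h7]
      exact (dist_coe_le _ _).trans h1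

end Pool.Agent.Q146.FAD
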